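import Pool.Agent.Helper75.FS.St

set_option autoImplicit false

namespace Pool.Agent.Helper79.FS

open Pool.Agent.Helper75.FS

theorem descend (hA2 : StA2) (n r c j : ℕ) (h : Code n r (c + j)) : Code n r c := by
  induction j with
  | zero => exact h
  | succ j ih => exact ih (hA2 n r (c + j) h)

theorem hB4 (hA2 : StA2) (hA5 : StA5) (hA7 : StA7) (hB1 : StB1) (hB2 : StB2) (hB3 : StB3) :
    StB4 := by
  intro r hr ε hε
  obtain ⟨hb1, hb2, -, -⟩ := hB1 r hr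
  obtain ⟨B, hB⟩ : ∃ B : ℝ, B = (2 * (r : ℝ)) ^ r := ⟨_, rfl⟩
  have hLB : ∀ ρ, LL r ρ ≤ B := fun ρ => hB ▸ (hb1 ρ).2
  have hL1 : ∀ ρ, 1 ≤ LL r ρ := fun ρ => (hb1 ρ).1
  have hB1' : 1 ≤ B := (hL1 0).trans (hLB 0)
  have hX : 0 < 2 * B + ε / 2 := by positivity
  obtain ⟨C2, hC2⟩ := hB2 r hr (ε / 4) (by positivity)
  obtain ⟨C3, hC3⟩ := hB3 r hr (ε / 2) (by positivity)
  obtain ⟨N7, hN7⟩ := hA7 r (ε / 2 / (2 * B + ε / 2)) (by positivity)
  obtain ⟨N1, hN1⟩ := exists_nat_ge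
    ((LL r (max C2 C3) + ε / 4) * ((r.factorial : ℝ) * 2 ^ (max C2 C3)))
  refine ⟨max (max N7 N1) 1, fun n hn => ?_⟩
  have hn7 : N7 ≤ n := le_trans (le_trans (le_max_left _ _) (le_max_left _ _)) hn
  have hn1 : N1 ≤ n := le_trans (le_trans (le_max_right _ _) (le_max_left _ _)) hn
  have hn0 : 1 ≤ n := le_trans (le_max_right _ _) hn
  have hnr : (n : ℝ) ≤ (n : ℝ) ^ r :=
    le_self_pow₀ (by exact_mod_cast hn0) (by omega)
  have hcode : Code n r (max C2 C3) := by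
    apply hC2 (max C2 C3) (le_max_left _ _) n
    refine hN1.trans (le_trans ?_ hnr)
    exact_mod_cast hn1
  obtain ⟨c, hc, hc1, hmm⟩ := hA5.2.1 n r
  have hcC : max C2 C3 ≤ c := by
    by_contra hlt
    rw [not_le] at hlt
    apply hc1
    apply descend hA2 n r (c + 1) (max C2 C3 - (c + 1))
    have : c + 1 + (max C2 C3 - (c + 1)) = max C2 C3 := by omega
    rw [this]
    exact hcode
  have hcC2 : C2 ≤ c + 1 := by
    have := le_max_left C2 C3
    omega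
  have hcC3 : C3 ≤ c := (le_max_right C2 C3).trans hcC
  have hfp : (0 : ℝ) < (r.factorial : ℝ) := by exact_mod_cast Nat.factorial_pos r
  have hcp : (0 : ℝ) < 2 ^ c := by positivity
  have hup : (n : ℝ) ^ r < (LL r (c + 1) + ε / 4) * ((r.factorial : ℝ) * 2 ^ (c + 1)) := by
    by_contra hle
    rw [not_lt] at hle
    exact hc1 (hC2 (c + 1) hcC2 n hle)
  have hlo := hC3 c hcC3 n hc
  obtain ⟨x, hx⟩ : ∃ x : ℝ, x = (n : ℝ) ^ r / r.factorial / 2 ^ c := ⟨_, rfl⟩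
  have hx' : (n : ℝ) ^ r = x * ((r.factorial : ℝ) * 2 ^ c) := by
    rw [hx]; field_simp
  have hxup : x ≤ 2 * LL r (c + 1) + ε / 2 := by
    rw [hx', pow_succ] at hup
    have h1 : x * ((r.factorial : ℝ) * 2 ^ c) <
        (2 * LL r (c + 1) + ε / 2) * ((r.factorial : ℝ) * 2 ^ c) := by
      refine hup.trans_eq ?_
      ring
    exact (lt_of_mul_lt_mul_right h1 (by positivity)).le
  have hxlo : LL r c - ε / 2 ≤ x := by
    rw [hx'] at hlo
    exact le_of_mul_le_mul_right hlo (by positivity)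
  have hx0 : 0 ≤ x := by rw [hx]; positivity
  have hxX : x ≤ 2 * B + ε / 2 := by
    have := hLB (c + 1)
    linarith
  obtain ⟨hb7, hb7'⟩ := hN7 n hn7
  have hδx : ε / 2 / (2 * B + ε / 2) * x ≤ ε / 2 := by
    rw [div_mul_eq_mul_div, div_le_iff₀ hX]
    exact mul_le_mul_of_nonneg_left hxX (by positivity)
  have hm1 : (1 - ε / 2 / (2 * B + ε / 2)) * x ≤ mm n r := by
    rw [hmm, hx, ← mul_div_assoc]
    exact div_le_div_of_nonneg_right hb7 hcp.le
  have hm2 : mm n r ≤ (1 + ε / 2 / (2 * B + ε / 2)) * x := by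
    rw [hmm, hx, ← mul_div_assoc]
    exact div_le_div_of_nonneg_right hb7' hcp.le
  have e1 : LL r (c % r) = LL r c := hb2 _ _ (Nat.mod_modEq c r)
  have e2 : LL r (c % r + 1) = LL r (c + 1) := hb2 _ _ ((Nat.mod_modEq c r).add_right 1)
  refine ⟨c % r, Nat.mod_lt c (by omega), ?_, ?_⟩
  · rw [e1]
    nlinarith
  · rw [e2]
    nlinarith

end Pool.Agent.Helper79.FS
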